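import Pool.Agent.H89QU.Field

/-! # MP_2429c0_al: fields whose quaternion algebras have a common slot

Let `F` be a field of characteristic `≠ 2` with finitely many square classes.  If all quaternion
algebras over `F` have a common slot (equivalently: any finitely many of them have one), then the
quaternionic structure of `F` is of elementary type.  In fact this holds exactly when the structure
is a product of structures with at most two quaternions and of group extensions `T[x]` of
structures with `q_T = 0`, and exactly when the core of `F` is `F*`. -/

set_option autoImplicit false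

namespace Pool.Agent.Results.MP_2429c0_al.CommonSlot

open scoped Quaternion
open Pool.Agent.H315R3.ETC Pool.Agent.TH188.ET Pool.Agent.TH673.VG

/-- all quaternion algebras over `F` have the common slot `a`: for all `b, c` there is `d` such
that the quaternion algebras `(b,c)` and `(a,d)` are isomorphic -/
def CommonSlot (F : Type*) [Field F] (a : Fˣ) : Prop :=
  ∀ b c : Fˣ, ∃ d : Fˣ, Nonempty (ℍ[F,(b : F),0,(c : F)] ≃ₐ[F] ℍ[F,(a : F),0,(d : F)])

/-- any finitely many quaternion algebras over `F` have a common slot -/
def StronglyLinked (F : Type*) [Field F] : Prop :=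
  ∀ (n : ℕ) (b c : Fin n → Fˣ), ∃ a : Fˣ, ∀ i, ∃ d : Fˣ,
    Nonempty (ℍ[F,(b i : F),0,(c i : F)] ≃ₐ[F] ℍ[F,(a : F),0,(d : F)])

theorem result {F : Type*} [Field F] (h2 : (2 : F) ≠ 0) (hfin : FinSq F) :
    -- fields with a common slot are of elementary type
    ((∃ a, CommonSlot F a) → ∃ S : QData, Elem S ∧ IsStructureOf F S) ∧
    -- the structures which occur
    ((∃ a, CommonSlot F a) ↔ ∃ S : QData, ProdEx S ∧ IsStructureOf F S) ∧
    -- in terms of norm groups
    ((∃ a, CommonSlot F a) ↔ fieldCore F = ⊤) ∧
    -- a common slot of any finitely many quaternion algebras is enough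
    (StronglyLinked F ↔ ∃ a, CommonSlot F a) :=
  Pool.Agent.H89QU.field_slot h2 hfin

end Pool.Agent.Results.MP_2429c0_al.CommonSlot
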