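import Pool.Agent.H89FL.Field

/-! # MP_2429c0_al: elementary type and chains of quaternion algebras

Let `F` be a field of characteristic `≠ 2` with finitely many square classes.  For a subgroup `C` of
`K_2(F)/2` the field `F` is *linked modulo `C`* if `{a,b} ≡ {c,d}` modulo `C` implies
`{a,b} ≡ {a,x}` and `{c,d} ≡ {c,x}` modulo `C` for some `x`; for `C = 0` this always holds.

The quaternionic structure of `F` is of elementary type if and only if `K_2(F)/2` is generated by
symbols `s_1, …, s_k` such that `F` is linked modulo the subgroups generated by `s_1, …, s_i`,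
`i = 0, …, k`.  For the implication to elementary type it is enough to have such a chain of
subgroups up to a subgroup `C_k` modulo which all symbols have a common slot, or modulo which the
structure is of elementary type.  A single step of such a chain is the choice of one *good*
element: `t` is good modulo `C` if `t ≡ {a,x} + {c,y}` implies `t ≡ {p,z}` with `p ∈ {a, c, ac}`.
If `F` is not of elementary type, then modulo some `C`, modulo which `F` is linked, `F` is not of
elementary type and there is no good symbol. -/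

set_option autoImplicit false

namespace Pool.Agent.Results.MP_2429c0_al.LinkedChains

open Pool.Agent.H315R3.ETC Pool.Agent.TH188.ET

/-- `F` is linked modulo `C`: if `{a,b} ≡ {c,d}` modulo `C`, there is `x` with
`{a,b} ≡ {a,x}` and `{c,d} ≡ {c,x}` modulo `C` -/
def LinkedMod (F : Type*) [Field F] (C : AddSubgroup (K2 F)) : Prop :=
  ∀ a b c d : Fˣ, sy a b - sy c d ∈ C → ∃ x : Fˣ, sy a b - sy a x ∈ C ∧ sy c d - sy c x ∈ C

/-- a chain `0 = C₀ ≤ … ≤ C_k` of subgroups of `K_2(F)/2`, each of index at most two in the next,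
such that `F` is linked modulo each of them -/
structure LinkedChain (F : Type*) [Field F] (k : ℕ) (C : ℕ → AddSubgroup (K2 F)) : Prop where
  zero : C 0 = ⊥
  index : ∀ i < k, C i ≤ C (i + 1) ∧
    ∀ u ∈ C (i + 1), ∀ v ∈ C (i + 1), u ∈ C i ∨ v ∈ C i ∨ u + v ∈ C i
  linked : ∀ i ≤ k, LinkedMod F (C i)

/-- a chain `0 = C₀ ≤ … ≤ C_k` of subgroups of `K_2(F)/2`, each generated by the previous one and
a symbol, such that `F` is linked modulo each of them -/
structure SymbolChain (F : Type*) [Field F] (k : ℕ) (C : ℕ → AddSubgroup (K2 F)) : Prop where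
  zero : C 0 = ⊥
  next : ∀ i < k, ∃ a b : Fˣ, C (i + 1) = C i ⊔ AddSubgroup.zmultiples (sy a b)
  linked : ∀ i ≤ k, LinkedMod F (C i)

/-- `C` is generated by symbols -/
def SymbolGenerated (F : Type*) [Field F] (C : AddSubgroup (K2 F)) : Prop :=
  C ≤ AddSubgroup.closure {t | t ∈ C ∧ ∃ a b : Fˣ, t = sy a b}

/-- `t` is good modulo `C`: if `t ≡ {a,x} + {c,y}` modulo `C`, then `t ≡ {p,z}` modulo `C` for some
`z` and some `p ∈ {a, c, ac}` -/
def Good (F : Type*) [Field F] (C : AddSubgroup (K2 F)) (t : K2 F) : Prop :=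
  ∀ a c x y : Fˣ, t - (sy a x + sy c y) ∈ C →
    ∃ z : Fˣ, t - sy a z ∈ C ∨ t - sy c z ∈ C ∨ t - sy (a * c) z ∈ C

/-- `S` is the quaternionic structure of `F` modulo `C`: `G = F*/F*²`, the distinguished element is
the class of `-1`, and `q(a,b) = q(c,d)` iff `{a,b} ≡ {c,d}` modulo `C` -/
def IsStructureMod (F : Type*) [Field F] (C : AddSubgroup (K2 F)) (S : QData) : Prop :=
  ∃ φ : Fˣ →* S.G, Function.Surjective φ ∧ (∀ a : Fˣ, φ a = 1 ↔ ∃ b : Fˣ, a = b ^ 2) ∧
    φ (-1) = S.neg ∧ S.q 1 1 = S.zero ∧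
    ∀ a b c d : Fˣ, S.q (φ a) (φ b) = S.q (φ c) (φ d) ↔ sy a b - sy c d ∈ C

/-- `F` is of elementary type modulo `C` -/
def ElementaryMod (F : Type*) [Field F] (C : AddSubgroup (K2 F)) : Prop :=
  ∃ S : QData, Elem S ∧ IsStructureMod F C S

theorem result {F : Type*} [Field F] (h2 : (2 : F) ≠ 0) (hfin : FinSq F) :
    -- elementary type in terms of chains of symbols
    ((∃ S : QData, Elem S ∧ IsStructureOf F S) ↔
      ∃ (k : ℕ) (C : ℕ → AddSubgroup (K2 F)), SymbolChain F k C ∧ C k = ⊤) ∧
    -- a common slot modulo the last group of a chain is enough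
    (∀ (k : ℕ) (C : ℕ → AddSubgroup (K2 F)) (u : Fˣ), LinkedChain F k C →
      (∀ a b : Fˣ, ∃ c : Fˣ, sy a b - sy u c ∈ C k) → ∃ S : QData, Elem S ∧ IsStructureOf F S) ∧
    -- elementary type modulo the last group of a chain is enough
    (∀ (k : ℕ) (C : ℕ → AddSubgroup (K2 F)), LinkedChain F k C → SymbolGenerated F (C k) →
      ElementaryMod F (C k) → ∃ S : QData, Elem S ∧ IsStructureOf F S) ∧
    -- the steps of a chain are the good elements
    (∀ (C : AddSubgroup (K2 F)) (t : K2 F), LinkedMod F C →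
      (Good F C t ↔ LinkedMod F (C ⊔ AddSubgroup.zmultiples t))) ∧
    -- a counterexample gives one without good symbols
    ((¬ ∃ S : QData, Elem S ∧ IsStructureOf F S) → ∃ C : AddSubgroup (K2 F),
      SymbolGenerated F C ∧ LinkedMod F C ∧ ¬ ElementaryMod F C ∧
      ∀ a b : Fˣ, sy a b ∉ C → ¬ Good F C (sy a b)) := by
  obtain ⟨p1, p2, p3, p4, p5⟩ := Pool.Agent.H89FL.field_chains h2 hfin
  refine ⟨?_, ?_, ?_, p4, p5⟩
  · rw [p1]
    constructor
    · rintro ⟨k, C, h, h'⟩
      exact ⟨k, C, ⟨h.zero, h.next, h.linked⟩, h'⟩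
    · rintro ⟨k, C, h, h'⟩
      exact ⟨k, C, ⟨h.zero, h.next, h.linked⟩, h'⟩
  · intro k C u h
    exact p2 k C u ⟨h.zero, h.index, h.linked⟩
  · intro k C h
    exact p3 k C ⟨h.zero, h.index, h.linked⟩

end Pool.Agent.Results.MP_2429c0_al.LinkedChains
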