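import Pool.Agent.H89M6.FieldC

/-! # MP_2429c0_al: fields with at most 34 quaternion algebras

Let `F` be a field of characteristic `≠ 2` with finitely many square classes.  If there are at most
34 quaternion algebras over `F` up to isomorphism, then the quaternionic structure of `F` is of
elementary type.  It is enough that, for all `w, x, y, z`, there are at most 34 quaternion algebras
`(g,b)` with `g` in the subgroup generated by `w, x, y, z`.  The same holds modulo every subgroup `C`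
of `K_2(F)/2` modulo which `F` is linked, and for the structure of `F` itself if `C` is the end of a
chain of subgroups, each of index at most two in the next, modulo which `F` is linked. -/

set_option autoImplicit false

namespace Pool.Agent.Results.MP_2429c0_al.ThirtyFour

open scoped Quaternion
open Pool.Agent.H315R3.ETC Pool.Agent.TH188.ET

universe u

/-- there are at most `n` quaternion algebras `(g,b)`, `g ∈ W`, up to isomorphism -/
def AtMost {F : Type u} [Field F] (n : ℕ) (W : Set Fˣ) : Prop :=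
  ∃ l : Fin n → Fˣ × Fˣ, ∀ g ∈ W, ∀ b : Fˣ,
    ∃ i, Nonempty (ℍ[F,(g : F),0,(b : F)] ≃ₐ[F] ℍ[F,((l i).1 : F),0,((l i).2 : F)])

/-- modulo `C` there are at most `n` symbols `{g,b}`, `g ∈ W` -/
def AtMostMod {F : Type u} [Field F] (n : ℕ) (C : AddSubgroup (K2 F)) (W : Set Fˣ) : Prop :=
  ∃ l : Fin n → Fˣ × Fˣ, ∀ g ∈ W, ∀ b : Fˣ, ∃ i, sy g b - sy (l i).1 (l i).2 ∈ C

/-- `F` is linked modulo `C`: if `{a,b} ≡ {c,d}` modulo `C`, there is `x` with
`{a,b} ≡ {a,x}` and `{c,d} ≡ {c,x}` modulo `C` -/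
def LinkedMod (F : Type u) [Field F] (C : AddSubgroup (K2 F)) : Prop :=
  ∀ a b c d : Fˣ, sy a b - sy c d ∈ C → ∃ x : Fˣ, sy a b - sy a x ∈ C ∧ sy c d - sy c x ∈ C

/-- a chain `0 = C₀ ≤ … ≤ C_k` of subgroups of `K_2(F)/2`, each of index at most two in the next,
such that `F` is linked modulo each of them -/
structure LinkedChain (F : Type u) [Field F] (k : ℕ) (C : ℕ → AddSubgroup (K2 F)) : Prop where
  zero : C 0 = ⊥
  index : ∀ i < k, C i ≤ C (i + 1) ∧
    ∀ u ∈ C (i + 1), ∀ v ∈ C (i + 1), u ∈ C i ∨ v ∈ C i ∨ u + v ∈ C i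
  linked : ∀ i ≤ k, LinkedMod F (C i)

/-- `S` is the quaternionic structure of `F` modulo `C`: `G = F*/F*²`, the distinguished element is
the class of `-1`, and `q(a,b) = q(c,d)` iff `{a,b} ≡ {c,d}` modulo `C` -/
def IsStructureMod (F : Type u) [Field F] (C : AddSubgroup (K2 F)) (S : QData) : Prop :=
  ∃ φ : Fˣ →* S.G, Function.Surjective φ ∧ (∀ a : Fˣ, φ a = 1 ↔ ∃ b : Fˣ, a = b ^ 2) ∧
    φ (-1) = S.neg ∧ S.q 1 1 = S.zero ∧
    ∀ a b c d : Fˣ, S.q (φ a) (φ b) = S.q (φ c) (φ d) ↔ sy a b - sy c d ∈ C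

/-- `F` is of elementary type modulo `C` -/
def ElementaryMod (F : Type u) [Field F] (C : AddSubgroup (K2 F)) : Prop :=
  ∃ S : QData, Elem S ∧ IsStructureMod F C S

theorem result {F : Type u} [Field F] (h2 : (2 : F) ≠ 0)
    (hfin : (powMonoidHom 2 : Fˣ →* Fˣ).range.index ≠ 0) :
    -- at most 34 quaternion algebras
    (AtMost 34 (Set.univ : Set Fˣ) → ∃ S : QData, Elem S ∧ IsStructureOf F S) ∧
    -- for all `w, x, y, z`: at most 34 quaternion algebras with a slot in `⟨w,x,y,z⟩`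
    ((∀ w x y z : Fˣ, AtMost 34 ((Subgroup.closure {w, x, y, z} : Subgroup Fˣ) : Set Fˣ)) →
      ∃ S : QData, Elem S ∧ IsStructureOf F S) ∧
    -- the end of a chain
    (∀ (k : ℕ) (C : ℕ → AddSubgroup (K2 F)), LinkedChain F k C →
      (∀ w x y z : Fˣ,
        AtMostMod 34 (C k) ((Subgroup.closure {w, x, y, z} : Subgroup Fˣ) : Set Fˣ)) →
      ∃ S : QData, Elem S ∧ IsStructureOf F S) ∧
    -- modulo a subgroup
    (∀ C : AddSubgroup (K2 F), LinkedMod F C →
      (∀ w x y z : Fˣ,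
        AtMostMod 34 C ((Subgroup.closure {w, x, y, z} : Subgroup Fˣ) : Set Fˣ)) →
      ElementaryMod F C) := by
  have hF : FinSq F := by
    have : Finite (Fˣ ⧸ (powMonoidHom 2 : Fˣ →* Fˣ).range) := by
      by_contra hc
      rw [not_finite_iff_infinite] at hc
      exact hfin Nat.card_eq_zero_of_infinite
    exact this
  have key : (∀ w x y z : Fˣ,
      AtMost 34 ((Subgroup.closure {w, x, y, z} : Subgroup Fˣ) : Set Fˣ)) →
      ∃ S : QData, Elem S ∧ IsStructureOf F S :=
    fun h => Pool.Agent.H89M6.elem34 h2 hF h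
  obtain ⟨p1, p2⟩ := Pool.Agent.H89M6.field34C h2 hF
  exact ⟨fun ⟨l, hl⟩ => key fun w x y z => ⟨l, fun g _ b => hl g trivial b⟩, key,
    fun k C h h3 => p1 k C ⟨h.zero, h.index, h.linked⟩ h3, fun C h h3 => p2 C h h3⟩

end Pool.Agent.Results.MP_2429c0_al.ThirtyFour
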