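import Pool.Agent.H89M5.Field

/-! # MP_2429c0_al: fields whose three-generated parts of `K_2(F)/2` have at most 32 elements

Let `F` be a field of characteristic `≠ 2` with finitely many square classes, and `Q_a = {a, F*}`.
If for all `x, y, z` the group `Q_x + Q_y + Q_z` has at most 32 elements, in particular if
`K_2(F)/2` has at most 32 elements, then the quaternionic structure of `F` is of elementary type.
The same holds modulo every subgroup `C` of `K_2(F)/2` modulo which `F` is linked, and for the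
structure of `F` itself if `C` is the end of a chain of subgroups, each of index at most two in the
next, modulo which `F` is linked. -/

set_option autoImplicit false

namespace Pool.Agent.Results.MP_2429c0_al.ThirtyTwo

open Pool.Agent.H315R3.ETC Pool.Agent.TH188.ET

/-- `Q_a = {a, F*}`: the subgroup of `K_2(F)/2` generated by all symbols `{a,b}`, `b ∈ F*` (it
consists of these symbols) -/
def QGroup {F : Type*} [Field F] (a : Fˣ) : AddSubgroup (K2 F) :=
  AddSubgroup.closure (Set.range (sy a))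

/-- for all `x, y, z` the group `Q_x + Q_y + Q_z` has at most 32 elements modulo `C` (the relative
index is the number of its classes modulo `C`) -/
def SmallMod (F : Type*) [Field F] (C : AddSubgroup (K2 F)) : Prop :=
  ∀ x y z : Fˣ, C.relIndex (QGroup x ⊔ QGroup y ⊔ QGroup z) ≤ 32

/-- `F` is linked modulo `C`: if `{a,b} ≡ {c,d}` modulo `C`, there is `x` with
`{a,b} ≡ {a,x}` and `{c,d} ≡ {c,x}` modulo `C` -/
def LinkedMod (F : Type*) [Field F] (C : AddSubgroup (K2 F)) : Prop :=
  ∀ a b c d : Fˣ, sy a b - sy c d ∈ C → ∃ x : Fˣ, sy a b - sy a x ∈ C ∧ sy c d - sy c x ∈ C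

/-- a chain `0 = C₀ ≤ … ≤ C_k` of subgroups of `K_2(F)/2`, each of index at most two in the next,
such that `F` is linked modulo each of them -/
structure LinkedChain (F : Type*) [Field F] (k : ℕ) (C : ℕ → AddSubgroup (K2 F)) : Prop where
  zero : C 0 = ⊥
  index : ∀ i < k, C i ≤ C (i + 1) ∧
    ∀ u ∈ C (i + 1), ∀ v ∈ C (i + 1), u ∈ C i ∨ v ∈ C i ∨ u + v ∈ C i
  linked : ∀ i ≤ k, LinkedMod F (C i)

/-- `S` is the quaternionic structure of `F` modulo `C`: `G = F*/F*²`, the distinguished element is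
the class of `-1`, and `q(a,b) = q(c,d)` iff `{a,b} ≡ {c,d}` modulo `C` -/
def IsStructureMod (F : Type*) [Field F] (C : AddSubgroup (K2 F)) (S : QData) : Prop :=
  ∃ φ : Fˣ →* S.G, Function.Surjective φ ∧ (∀ a : Fˣ, φ a = 1 ↔ ∃ b : Fˣ, a = b ^ 2) ∧
    φ (-1) = S.neg ∧ S.q 1 1 = S.zero ∧
    ∀ a b c d : Fˣ, S.q (φ a) (φ b) = S.q (φ c) (φ d) ↔ sy a b - sy c d ∈ C

/-- `F` is of elementary type modulo `C` -/
def ElementaryMod (F : Type*) [Field F] (C : AddSubgroup (K2 F)) : Prop :=
  ∃ S : QData, Elem S ∧ IsStructureMod F C S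

theorem result {F : Type*} [Field F] (h2 : (2 : F) ≠ 0) (hfin : FinSq F) :
    -- at most 32 elements
    (Finite (K2 F) ∧
      (Nat.card (K2 F) ≤ 32 → ∃ S : QData, Elem S ∧ IsStructureOf F S)) ∧
    -- three-generated parts with at most 32 elements
    ((∀ x y z : Fˣ, Nat.card (QGroup x ⊔ QGroup y ⊔ QGroup z : AddSubgroup (K2 F)) ≤ 32) →
      ∃ S : QData, Elem S ∧ IsStructureOf F S) ∧
    -- the end of a chain
    (∀ (k : ℕ) (C : ℕ → AddSubgroup (K2 F)), LinkedChain F k C → SmallMod F (C k) →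
      ∃ S : QData, Elem S ∧ IsStructureOf F S) ∧
    -- modulo a subgroup
    (∀ C : AddSubgroup (K2 F), LinkedMod F C → SmallMod F C → ElementaryMod F C) := by
  obtain ⟨hf, p1, p2, p3⟩ := Pool.Agent.H89M5.field32 h2 hfin
  have key : (∀ x y z : Fˣ,
      Nat.card (QGroup x ⊔ QGroup y ⊔ QGroup z : AddSubgroup (K2 F)) ≤ 32) →
      ∃ S : QData, Elem S ∧ IsStructureOf F S := by
    intro h
    refine p1 0 (fun _ => ⊥) ⟨rfl, fun i hi => absurd hi (Nat.not_lt_zero _), fun i _ => p3⟩ ?_
    intro x y z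
    rw [AddSubgroup.relIndex_bot_left]
    exact h x y z
  refine ⟨⟨hf, fun h => key fun x y z => ?_⟩, key, ?_, ?_⟩
  · exact (Nat.card_le_card_of_injective (Subtype.val :
      (QGroup x ⊔ QGroup y ⊔ QGroup z : AddSubgroup (K2 F)) → K2 F) Subtype.val_injective).trans h
  · intro k C h h3
    exact p1 k C ⟨h.zero, h.index, h.linked⟩ h3
  · intro C h h3
    exact p2 C h h3

end Pool.Agent.Results.MP_2429c0_al.ThirtyTwo
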